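import Pool.Agent.H54.Q9.Nine
import Pool.Agent.H54.Q.D.Main

/-!
# Packing disjoint `n`-queens solutions for `n ≡ 3 (mod 6)`

`Attack p q`: the squares `p`, `q` share a row, a column or a diagonal; `IsPattern n s`: `s` is a
set of `n` pairwise nonattacking squares; `IsPacking n F`: `F` is a family of pairwise disjoint
patterns; `Q n`: the largest size of such a family (`Pool/Agent/H54/Q9/Basic.lean`).

The values `Q n = n` come from `n`-colourings of the `n × n` queens graph
(`Pool/Agent/H54/Q/`, the proof that the queens graph is `n`-colourable for all large `n`);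
`Q 9 = 7` from an exhaustive search with a certificate (`Pool/Agent/H54/Q9/`).
-/

set_option autoImplicit false

namespace Pool.Agent.Results.MP_a05606_co.NineAndLarge

open H54.Q9

/-- **Main result.** `Q 9 = 7`; `Q n = n` for all sufficiently large `n = 6 m + 3`; and
`Q n = n` for the explicit numbers `n = (16 m + 1) u ≡ 3 (mod 6)` with `m` coprime to `210`,
`m ≡ 2 (mod 3)`, and `u` coprime to `6`. -/
theorem result :
    Q 9 = 7 ∧
    (∃ m₀ : ℕ, ∀ m : ℕ, m₀ ≤ m → Q (6 * m + 3) = 6 * m + 3) ∧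
    (∀ m u : ℕ, Nat.Coprime m 210 → m % 3 = 2 → Nat.Coprime u 6 →
      ((16 * m + 1) * u) % 6 = 3 ∧ Q ((16 * m + 1) * u) = (16 * m + 1) * u) := by
  refine ⟨Q_nine, ?_, ?_⟩
  · obtain ⟨n₀, h⟩ := H54.Q.D.SQ_all
    exact ⟨n₀, fun m hm => Q_eq_of_SQ (by omega) (h _ (by omega))⟩
  · intro m u hm hm3 hu
    have hodd : u % 6 = 1 ∨ u % 6 = 5 := by
      have h2 : ¬ 2 ∣ u := fun h => by
        have := Nat.dvd_gcd h (by norm_num : 2 ∣ 6)
        rw [hu] at this; omega
      have h3 : ¬ 3 ∣ u := fun h => by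
        have := Nat.dvd_gcd h (by norm_num : 3 ∣ 6)
        rw [hu] at this; omega
      omega
    have h1 : (16 * m + 1) % 6 = 3 := by omega
    constructor
    · rw [Nat.mul_mod, h1]
      rcases hodd with h | h <;> rw [h]
    · refine Q_eq_of_SQ ?_ (H54.Q.SQ_mul _ _ (H54.Q.SQ_16 m hm) hu)
      refine Nat.one_le_iff_ne_zero.2 (Nat.mul_ne_zero (by omega) (by omega))

end Pool.Agent.Results.MP_a05606_co.NineAndLarge
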